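import Pool.Agent.J4H21.EE.Stm
import Pool.Agent.TH966.KO.Rates

set_option autoImplicit false

/-! # Project EE (MP_794e6e_pr), job BASE: the facts about the numbers of walks from the library -/

namespace Pool.Agent.J4H21.EE

open Finset Filter Topology KN
open scoped Classical

theorem S_card (n : ℕ) : (S n).card = TH966.KO.c n := (TH966.KO.BR.c_eq n).symm

theorem t_BASE : S_BASE := by
  refine ⟨TH966.KO.μ, ⟨TH966.KO.mu_ge, TH966.KO.mu_le, ?_, ?_, ?_⟩, ?_, ?_⟩
  · intro n
    rw [S_card]
    exact TH966.KO.mu_pow n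
  · intro τ hτ
    obtain ⟨C, hC, h⟩ := TH966.KO.growth τ hτ
    exact ⟨C, hC, fun n => by rw [S_card]; exact h n⟩
  · obtain ⟨K, hK⟩ := TH966.KO.rates (1 / 6) (by norm_num)
    have h1 : Tendsto (fun n : ℕ => (n : ℝ) ^ (-(1 / 6 : ℝ))) atTop (𝓝 0) :=
      (tendsto_rpow_neg_atTop (by norm_num : (0 : ℝ) < 1 / 6)).comp tendsto_natCast_atTop_atTop
    have h2 : Tendsto (fun n : ℕ => (n : ℝ) ^ (-(7 / 30 : ℝ))) atTop (𝓝 0) :=
      (tendsto_rpow_neg_atTop (by norm_num : (0 : ℝ) < 7 / 30)).comp tendsto_natCast_atTop_atTop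
    have h3 := (h1.const_mul K).neg
    have h4 := h2.const_mul K
    simp only [mul_zero, neg_zero] at h3 h4
    have h5 : Tendsto (fun n : ℕ => (TH966.KO.c (n + 2) : ℝ) / TH966.KO.c n -
        TH966.KO.μ ^ 2) atTop (𝓝 0) := by
      refine tendsto_of_tendsto_of_tendsto_of_le_of_le' h3 h4 ?_ ?_
      · filter_upwards [hK] with n hn
        have := hn.1
        norm_num at this ⊢
        exact this
      · filter_upwards [hK] with n hn
        have := hn.2
        norm_num at this ⊢
        exact this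
    have h6 := h5.add_const (TH966.KO.μ ^ 2)
    rw [zero_add] at h6
    refine h6.congr fun n => ?_
    rw [S_card, S_card]
    ring
  · intro n
    rw [S_card]
    exact (Pool.Agent.H46R2.K3.P.card_eq n).symm
  · refine TH966.KO.tend.congr fun n => ?_
    rw [S_card]

end Pool.Agent.J4H21.EE
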