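import Pool.Agent.J4H21.EE.Stm
import Pool.Agent.H246KN.Basic

set_option autoImplicit false

/-!
# Project EE (MP_794e6e_pr), job CL: the closing probability tends to zero
-/

namespace Pool.Agent.J4H21.EE

open Finset Filter Topology KN
open scoped Classical

theorem mem_P {n : ℕ} {v : List Dir} : v ∈ P n ↔ v.length = n ∧ KN.SAP v := by
  unfold P; rw [mem_filter, KN.mem_W]

theorem mem_S {n : ℕ} {v : List Dir} : v ∈ S n ↔ v.length = n ∧ KN.SAW v := by
  unfold S; rw [mem_filter, KN.mem_W]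

theorem saw_of_append {l1 l2 : List Dir} (h : KN.SAW (l1 ++ l2)) : KN.SAW l1 := by
  unfold KN.SAW at *
  rw [KN.path_append] at h
  have h1 : (path l1) = (path l1).dropLast ++ [0] := by
    have := List.dropLast_append_getLast (KN.path_ne_nil l1)
    rw [KN.path_getLast] at this
    exact this.symm
  have h2 : path l2 = pos l2 :: (path l2).tail := by
    cases l2 <;> rfl
  rw [h2] at h
  have h3 : ((path l1).map (fun p => p + pos l2)).Nodup := by
    rw [h1, List.map_append]
    refine List.Nodup.sublist ?_ h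
    simp only [List.map_cons, List.map_nil, zero_add]
    exact List.Sublist.append_left (by simp) _
  exact List.Nodup.of_map _ h3

/-- the words of a fixed length with few charged... which occur -/
theorem card_occ (N J : ℕ) (hJ : 1 ≤ J) (Q : List Dir → Prop) :
    (((KN.W J).filter (fun u => Q u ∧ A N u ≠ 0)).card) ≤ 6 * (S (J - 1)).card := by
  have hsub : (KN.W J).filter (fun u => Q u ∧ A N u ≠ 0) ⊆
      ((univ : Finset Dir) ×ˢ S (J - 1)).image (fun p => p.1 :: p.2) := by
    intro u hu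
    rw [mem_filter, KN.mem_W] at hu
    obtain ⟨hlen, -, hA⟩ := hu
    unfold A at hA
    obtain ⟨v, hv⟩ := Finset.card_ne_zero.mp hA
    rw [mem_filter, mem_P] at hv
    obtain ⟨⟨-, hsap⟩, r, hr⟩ := hv
    cases u with
    | nil => simp at hlen; omega
    | cons d t =>
      rw [mem_image]
      refine ⟨(d, t), ?_, rfl⟩
      rw [mem_product]
      refine ⟨mem_univ _, ?_⟩
      rw [mem_S]
      refine ⟨by
        show t.length = J - 1
        rw [List.length_cons] at hlen
        omega, ?_⟩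
      have h3 := hsap.2.2
      rw [← hr] at h3
      simp only [List.cons_append, path, List.tail_cons] at h3
      exact saw_of_append h3
  refine (card_le_card hsub).trans (card_image_le.trans ?_)
  rw [card_product]
  have : (univ : Finset Dir).card = 6 := rfl
  rw [this]

/-- summation over the prefixes -/
theorem sum_prefix (N J : ℕ) (hJN : J ≤ N) (Q : List Dir → Prop) :
    ((P N).filter (fun v => Q (v.take J))).card ≤
      ∑ u ∈ (KN.W J).filter (fun u => Q u ∧ A N u ≠ 0), A N u := by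
  have hmaps : ∀ v ∈ (P N).filter (fun v => Q (v.take J)),
      v.take J ∈ (KN.W J).filter (fun u => Q u ∧ A N u ≠ 0) := by
    intro v hv
    rw [mem_filter] at hv
    have hv1 := hv.1
    rw [mem_P] at hv1
    rw [mem_filter, KN.mem_W]
    refine ⟨by rw [List.length_take]; omega, hv.2, ?_⟩
    unfold A
    rw [Finset.card_ne_zero]
    exact ⟨v, mem_filter.mpr ⟨hv.1, List.take_prefix _ _⟩⟩
  rw [card_eq_sum_card_fiberwise (f := fun v : List Dir => v.take J) hmaps]
  refine sum_le_sum fun u hu => ?_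
  unfold A
  apply card_le_card
  intro v hv
  rw [mem_filter, mem_filter] at hv
  rw [mem_filter]
  refine ⟨hv.1.1, ?_⟩
  rw [← hv.2]
  exact List.take_prefix _ _

theorem ratio_even {μ : ℝ} (hB : Base μ) (k : ℕ) :
    Tendsto (fun n : ℕ => ((S (n + 2 * k)).card : ℝ) / (S n).card) atTop (𝓝 (μ ^ (2 * k))) := by
  have hpos : ∀ n : ℕ, (0 : ℝ) < (S n).card := fun n =>
    lt_of_lt_of_le (pow_pos (by linarith [hB.ge]) n) (hB.low n)
  induction k with
  | zero =>
    simp only [mul_zero, add_zero, pow_zero]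
    refine tendsto_const_nhds.congr fun n => ?_
    rw [div_self (hpos n).ne']
  | succ k ih =>
    have h1 := (hB.ratio.comp (tendsto_add_atTop_nat (2 * k))).mul ih
    have h2 : μ ^ 2 * μ ^ (2 * k) = μ ^ (2 * (k + 1)) := by ring
    rw [h2] at h1
    refine h1.congr fun n => ?_
    simp only [Function.comp_apply]
    rw [show n + 2 * (k + 1) = n + 2 * k + 2 by ring]
    have := (hpos (n + 2 * k)).ne'
    have := (hpos n).ne'
    field_simp

theorem key (hU : S_UNC) (hK : S_KILL) {μ : ℝ} (hB : Base μ) {δ : ℝ} (hδ : 0 < δ) (hδ1 : δ ≤ 1) :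
    ∀ᶠ n : ℕ in atTop, ((P (n + 1)).card : ℝ) < δ * (S n).card := by
  have hμ : 0 < μ := by linarith [hB.ge]
  have hpos : ∀ n : ℕ, (0 : ℝ) < (S n).card := fun n =>
    lt_of_lt_of_le (pow_pos hμ n) (hB.low n)
  obtain ⟨γ, hγ⟩ : ∃ γ : ℝ, γ = δ / 100 := ⟨_, rfl⟩
  have hγ0 : 0 < γ := by rw [hγ]; positivity
  have hγ1 : γ ≤ 1 / 100 := by rw [hγ]; linarith
  obtain ⟨C, hC, hgr⟩ := hB.growth (γ / 15) (by positivity)
  have hbase : (1 + γ / 15) ^ 4 * (1 - γ) ≤ 1 - γ ^ 2 := by
    have h1 : (1 + γ / 15) ^ 4 ≤ 1 + γ := by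
      obtain ⟨x, hx⟩ : ∃ x : ℝ, x = γ / 15 := ⟨_, rfl⟩
      have hx0 : 0 < x := by rw [hx]; positivity
      have hx1 : x ≤ 1 := by rw [hx]; linarith
      have hg : γ = 15 * x := by rw [hx]; ring
      rw [← hx, hg]
      have h2 : x ^ 2 ≤ x := by nlinarith
      have h3 : x ^ 3 ≤ x := by nlinarith
      have h4 : x ^ 4 ≤ x := by nlinarith
      nlinarith
    have h2 : 0 ≤ 1 - γ := by linarith
    nlinarith
  obtain ⟨m, hm⟩ : ∃ m : ℕ, (1 - γ ^ 2) ^ m < δ / (24 * C) :=
    exists_pow_lt_of_lt_one (by positivity) (by nlinarith)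
  -- the eventual facts
  have hev1 : ∀ᶠ N : ℕ in atTop, ∀ k ∈ Icc 1 (2 * m), ∀ γ' : ℝ, 0 ≤ γ' → γ' ≤ 1 →
      (((P N).filter (fun v => ¬ Chg N γ' (v.take (4 * m + 1)) (2 * k))).card : ℝ) ≤
        (7 * γ' + γ) * (S (N - 1)).card := by
    rw [Filter.eventually_all_finset]
    intro k hk
    rw [mem_Icc] at hk
    exact hU μ hB (4 * m + 1) (2 * k) γ (by omega) (by omega) hγ0
  have hev2 : ∀ᶠ n : ℕ in atTop, μ ^ (2 * (2 * m)) / 2 * ((S (n - 4 * m)).card : ℝ) ≤ (S n).card := by
    have h1 := (ratio_even hB (2 * m)).eventually_const_lt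
      (show μ ^ (2 * (2 * m)) / 2 < μ ^ (2 * (2 * m)) by
        have : 0 < μ ^ (2 * (2 * m)) := by positivity
        linarith)
    have h2 := (tendsto_sub_atTop_nat (4 * m)).eventually h1
    filter_upwards [h2, eventually_ge_atTop (4 * m)] with n hn hn2
    rw [lt_div_iff₀ (hpos _)] at hn
    rw [show n - 4 * m + 2 * (2 * m) = n by omega] at hn
    exact hn.le
  have hev1' := (tendsto_add_atTop_nat 1).eventually hev1
  filter_upwards [hev1', hev2, eventually_ge_atTop (4 * m + 1)] with n h1 h2 hn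
  by_contra hcon
  push Not at hcon
  obtain ⟨N, hN⟩ : ∃ N : ℕ, N = n + 1 := ⟨_, rfl⟩
  obtain ⟨J, hJ⟩ : ∃ J : ℕ, J = 4 * m + 1 := ⟨_, rfl⟩
  rw [← hN, ← hJ] at h1
  rw [← hN] at hcon
  have hN1 : N - 1 = n := by omega
  have hPpos : (0 : ℝ) < (P N).card := lt_of_lt_of_le (mul_pos hδ (hpos n)) hcon
  have hunc : ∀ k ∈ Icc 1 (2 * m),
      (((P N).filter (fun v => ¬ Chg N γ (v.take J) (2 * k))).card : ℝ) ≤
        8 / 100 * (P N).card := by
    intro k hk
    refine (h1 k hk γ hγ0.le (by linarith)).trans ?_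
    rw [hN1]
    have : (7 * γ + γ) * ((S n).card : ℝ) = 8 / 100 * (δ * (S n).card) := by rw [hγ]; ring
    rw [this]
    linarith
  -- double counting
  have hdc : ∑ v ∈ P N, (((Icc 1 (2 * m)).filter
      (fun k => ¬ Chg N γ (v.take J) (2 * k))).card : ℝ) ≤ 2 * m * (8 / 100 * (P N).card) := by
    have e1 : ∑ v ∈ P N, (((Icc 1 (2 * m)).filter
        (fun k => ¬ Chg N γ (v.take J) (2 * k))).card : ℝ) =
        ∑ k ∈ Icc 1 (2 * m), (((P N).filter (fun v => ¬ Chg N γ (v.take J) (2 * k))).card : ℝ) := by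
      simp only [Finset.card_filter, Nat.cast_sum]
      rw [Finset.sum_comm]
    rw [e1]
    refine (sum_le_sum hunc).trans ?_
    rw [sum_const, Nat.card_Icc, nsmul_eq_mul, Nat.add_sub_cancel]
    push_cast
    exact le_rfl
  -- the good polygons
  obtain ⟨G, hG⟩ : ∃ G : Finset (List Dir), G = (P N).filter (fun v =>
    ((Icc 1 (2 * m)).filter (fun k => ¬ Chg N γ (v.take J) (2 * k))).card ≤ m) := ⟨_, rfl⟩
  have hGc : ((P N).card : ℝ) / 2 ≤ G.card := by
    obtain ⟨Bd, hBd⟩ : ∃ Bd : Finset (List Dir), Bd = (P N).filter (fun v =>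
        ¬ ((Icc 1 (2 * m)).filter (fun k => ¬ Chg N γ (v.take J) (2 * k))).card ≤ m) := ⟨_, rfl⟩
    have e1 : Bd.card + G.card = (P N).card := by
      rw [hG, hBd, add_comm]
      exact Finset.card_filter_add_card_filter_not (s := P N)
        (fun v : List Dir =>
          ((Icc 1 (2 * m)).filter (fun k => ¬ Chg N γ (v.take J) (2 * k))).card ≤ m)
    have hsub : Bd ⊆ P N := by rw [hBd]; exact filter_subset _ _
    have e2 : ((m : ℝ) + 1) * Bd.card ≤ 2 * m * (8 / 100 * (P N).card) := by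
      refine le_trans ?_ hdc
      refine le_trans ?_ (sum_le_sum_of_subset_of_nonneg hsub
        (fun _ _ _ => Nat.cast_nonneg _))
      rw [mul_comm, ← nsmul_eq_mul, ← sum_const]
      refine sum_le_sum fun v hv => ?_
      rw [hBd, mem_filter, not_le] at hv
      exact_mod_cast hv.2
    have e3 : (Bd.card : ℝ) + G.card = (P N).card := by exact_mod_cast e1
    have hm0 : (0 : ℝ) ≤ m := Nat.cast_nonneg m
    obtain ⟨X, hX⟩ : ∃ X : ℝ, X = (Bd.card : ℝ) := ⟨_, rfl⟩
    rw [← hX] at e2 e3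
    have hX0 : 0 ≤ X := by rw [hX]; exact Nat.cast_nonneg _
    have : X ≤ 16 / 100 * (P N).card := by
      by_contra hc
      push Not at hc
      nlinarith
    linarith
  obtain ⟨Q, hQ⟩ : ∃ Q : List Dir → Prop,
    Q = fun u => m ≤ ((Ico 1 J).filter (fun i => Chg N γ u i)).card := ⟨_, rfl⟩
  have hGsub : G ⊆ (P N).filter (fun v => Q (v.take J)) := by
    intro v hv
    rw [hG, mem_filter] at hv
    rw [mem_filter]
    refine ⟨hv.1, ?_⟩
    rw [hQ]
    show m ≤ ((Ico 1 J).filter (fun i => Chg N γ (v.take J) i)).card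
    have e1 : ((Icc 1 (2 * m)).filter (fun k => Chg N γ (v.take J) (2 * k))).card +
        ((Icc 1 (2 * m)).filter (fun k => ¬ Chg N γ (v.take J) (2 * k))).card = 2 * m := by
      rw [Finset.card_filter_add_card_filter_not, Nat.card_Icc]
      omega
    have e2 : ((Icc 1 (2 * m)).filter (fun k => Chg N γ (v.take J) (2 * k))).card ≤
        ((Ico 1 J).filter (fun i => Chg N γ (v.take J) i)).card := by
      refine card_le_card_of_injOn (fun k => 2 * k) ?_ ?_
      · intro k hk
        simp only [coe_filter, mem_Icc, Set.mem_ofPred_eq] at hk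
        simp only [coe_filter, mem_Ico, Set.mem_ofPred_eq]
        exact ⟨by omega, hk.2⟩
      · intro k _ k' _ h
        simp only at h
        omega
    omega
  have hmain : (G.card : ℝ) ≤ (6 * (S (J - 1)).card) * ((1 - γ) ^ m * (S (N - J)).card) := by
    have e1 := sum_prefix N J (by omega) Q
    have e2 : ((G.card : ℕ) : ℝ) ≤ ∑ u ∈ (KN.W J).filter (fun u =>
        Q u ∧ A N u ≠ 0), (A N u : ℝ) := by
      have h3 := (card_le_card hGsub).trans e1
      rw [← Nat.cast_sum]
      exact Nat.cast_le.mpr h3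
    refine e2.trans ?_
    have e3 : ∀ u ∈ (KN.W J).filter (fun u => Q u ∧ A N u ≠ 0),
        (A N u : ℝ) ≤ (1 - γ) ^ m * (S (N - J)).card := by
      intro u hu
      rw [mem_filter, KN.mem_W] at hu
      have h4 := hu.2.1
      rw [hQ] at h4
      exact hK N J m γ (by omega) (by omega) hγ0.le (by linarith) u hu.1 h4
    refine (sum_le_sum e3).trans ?_
    rw [sum_const, nsmul_eq_mul]
    apply mul_le_mul_of_nonneg_right _ (by
      have : 0 ≤ 1 - γ := by linarith
      positivity)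
    have h5 := card_occ N J (by omega) Q
    have h6 : (((((KN.W J).filter (fun u => Q u ∧ A N u ≠ 0)).card : ℕ)) : ℝ) ≤
        ((6 * (S (J - 1)).card : ℕ) : ℝ) := Nat.cast_le.mpr h5
    refine h6.trans (le_of_eq ?_)
    push_cast
    rfl
  -- the conclusion
  have hJ1 : J - 1 = 4 * m := by omega
  have hNJ : N - J = n - 4 * m := by omega
  rw [hJ1, hNJ] at hmain
  have hS4 : ((S (4 * m)).card : ℝ) ≤ C * ((1 + γ / 15) * μ) ^ (4 * m) := hgr _
  have hμm : 0 < μ ^ (4 * m) := by positivity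
  rw [show 2 * (2 * m) = 4 * m by ring] at h2
  have hfin : ((P N).card : ℝ) / 2 * μ ^ (4 * m) ≤
      (12 * C * (1 - γ ^ 2) ^ m * (S n).card) * μ ^ (4 * m) := by
    have h1γ : 0 ≤ 1 - γ := by linarith
    calc ((P N).card : ℝ) / 2 * μ ^ (4 * m) ≤ G.card * μ ^ (4 * m) :=
          mul_le_mul_of_nonneg_right hGc hμm.le
      _ ≤ ((6 * (S (4 * m)).card) * ((1 - γ) ^ m * (S (n - 4 * m)).card)) * μ ^ (4 * m) :=
          mul_le_mul_of_nonneg_right hmain hμm.le
      _ = (12 * (S (4 * m)).card * (1 - γ) ^ m) * (μ ^ (4 * m) / 2 * (S (n - 4 * m)).card) := by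
          ring
      _ ≤ (12 * (S (4 * m)).card * (1 - γ) ^ m) * (S n).card :=
          mul_le_mul_of_nonneg_left h2 (by positivity)
      _ ≤ (12 * (C * ((1 + γ / 15) * μ) ^ (4 * m)) * (1 - γ) ^ m) * (S n).card := by gcongr
      _ = (12 * C * ((1 + γ / 15) ^ 4 * (1 - γ)) ^ m * (S n).card) * μ ^ (4 * m) := by
          rw [mul_pow, mul_pow, ← pow_mul]; ring
      _ ≤ _ := by gcongr
  have hfin2 := le_of_mul_le_mul_right hfin hμm
  have hC24 : 12 * C * (1 - γ ^ 2) ^ m < δ / 2 := by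
    rw [lt_div_iff₀ (by positivity)] at hm
    linarith
  have := mul_lt_mul_of_pos_right hC24 (hpos n)
  linarith

theorem t_CL : S_UNC → S_KILL → S_CL := by
  intro hU hK μ hB
  have hμ : 0 < μ := by linarith [hB.ge]
  have hpos : ∀ n : ℕ, (0 : ℝ) < (S n).card := fun n =>
    lt_of_lt_of_le (pow_pos hμ n) (hB.low n)
  rw [Metric.tendsto_atTop]
  intro ε hε
  have h := key hU hK hB (δ := min ε 1) (lt_min hε one_pos) (min_le_right _ _)
  obtain ⟨n₀, hn₀⟩ := eventually_atTop.mp h
  refine ⟨n₀, fun n hn => ?_⟩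
  rw [Real.dist_eq, sub_zero, abs_of_nonneg (by positivity), div_lt_iff₀ (hpos n)]
  refine (hn₀ n hn).trans_le ?_
  exact mul_le_mul_of_nonneg_right (min_le_left _ _) (hpos n).le

end Pool.Agent.J4H21.EE
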