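import Pool.Agent.H246KN.Defs

set_option autoImplicit false

/-!
# Project EE (helper21), MP_794e6e_pr (hard, ×10): the one-step ratio `c_{n+1} / c_n` of self-avoiding walks on `ℤ³`

THEOREM. `10 μ² / (25 + μ²) - ε ≤ c_{n+1} / c_n ≤ (25 + μ²) / 10 + ε` for large `n` (so `c_{n+1} / (μ c_n)` is between
`1 / (1 + t)` and `1 + t`, `t = (5 - μ)² / (10 μ)`; numerically `t = 0.0021`); known: only `c_{n+2} / c_n → μ²` and the trivial
`μ² / 5 ≤ c_{n+1} / c_n ≤ 5`.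

IDEA. (TWO) extend a walk by one step at both ends: `c_{n+2} + #polygons = ∑ e₀ e₁ ≥ 10 c_{n+1} - 25 c_n` since
`(5 - e₀) (5 - e₁) ≥ 0`. (CL) the number of polygons is `o(c_n)` (a short proof of the theorem of Duminil-Copin, Glazman, Hammond
and Manolescu, see `S_CL`).

Words are lists over the six directions, the LAST letter of the list is the first step (`Pool/Agent/H246KN/Defs.lean`).
All statements are for the files of `KN`; write theorem `t_X : S_X` (or `t_X : S_A → S_B → S_X` where said).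
-/

namespace Pool.Agent.J4H21.EE

open Finset Filter Topology KN
open scoped Classical

noncomputable section

/-- the self-avoiding words of length `n` -/
def S (n : ℕ) : Finset (List Dir) := (KN.W n).filter KN.SAW

/-- the closed self-avoiding words of length `n` (polygons with a starting vertex and an orientation) -/
def P (n : ℕ) : Finset (List Dir) := (KN.W n).filter KN.SAP

/-- closed words with prefix `u` -/
def A (n : ℕ) (u : List Dir) : ℕ := ((P n).filter (fun v => u <+: v)).card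

/-- self-avoiding words with prefix `u` -/
def B (n : ℕ) (u : List Dir) : ℕ := ((S n).filter (fun v => u <+: v)).card

/-- the facts about the numbers of walks which are used -/
structure Base (μ : ℝ) : Prop where
  ge : 77 / 20 ≤ μ
  le : μ ≤ 5
  low : ∀ n : ℕ, μ ^ n ≤ ((S n).card : ℝ)
  growth : ∀ τ : ℝ, 0 < τ → ∃ C : ℝ, 0 < C ∧ ∀ n : ℕ, ((S n).card : ℝ) ≤ C * ((1 + τ) * μ) ^ n
  ratio : Tendsto (fun n : ℕ => ((S (n + 2)).card : ℝ) / (S n).card) atTop (𝓝 (μ ^ 2))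

/-- JOB BASE. From the library: `Pool/Agent/TH966/KO/Bridge.lean` (`mu_ge`, `mu_le`, `mu_pow`, `growth`, `tend`, `c_eq`) and
`Pool/Agent/TH966/KO/Rates.lean` (`rates`); `Pool.Agent.H46R2.K3.P.card_eq` gives the number of walks as functions. -/
def S_BASE : Prop := ∃ μ : ℝ, Base μ ∧
  (∀ n : ℕ, (S n).card = Nat.card {f : Fin (n + 1) → (Fin 3 → ℤ) //
    f 0 = 0 ∧ Function.Injective f ∧ ∀ i : Fin n, ∑ j : Fin 3, |f i.succ j - f i.castSucc j| = 1}) ∧
  Tendsto (fun n : ℕ => ((S n).card : ℝ) ^ (1 / (n : ℝ))) atTop (𝓝 μ)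

/-- JOB BAL (balance of free plaquettes and bumps). PROOF. `H726.GB.tail` (`Pool/Agent/H726/GB/Tail.lean`) for the system
`Sys (List Dir) (ℕ × Dir)` of the polygons: `K n = P n`, `S w = sites w`, `B w = ` the `(j, w.getD (j + 2))`, `j ∈ bumps w` (empty if
`w.length < 6`), `ins`, `rem` of `KN`, `s = 2`, `n0 = 0` (model: `Pool/Agent/H726/GB/SqSys.lean`); facts: `KN.S_ins_proof`,
`S_rem_proof`, `S_change_proof` (`H246KN/INS`, `REM`, `CHG`), `fr w ≤ 6 |w|`. Take `f = 1`, `t = τ n`, `H = sup_{j ≤ 2n} #P j / μ^j ≤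
C (1 + τ')^(2 n)` by `growth` and `#P (j + 1) ≤ #S j` (`closed_le` in `TH966/KO/Bridge.lean`, or directly: delete the first letter). -/
def S_BAL : Prop := ∀ μ : ℝ, Base μ → ∀ τ ε : ℝ, 0 < τ → 0 < ε → ∀ᶠ n : ℕ in atTop,
  (((P n).filter (fun v => μ ^ 2 * (bu v : ℝ) + τ * n ≤ (fr v : ℝ))).card : ℝ) ≤ ε * μ ^ n

/-- JOB DEN (many bumps). PROOF. `KN.S_pattern` (proved: `KN.c_pattern` in `H246KN/All.lean`, or `S_pattern_proof` in
`H246KN/PAT.lean` with its inputs) for `Q = fun _ => True`; its growth hypothesis from `Base.growth` and `#P (j + 1) ≤ #S j`. -/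
def S_DEN : Prop := ∀ μ : ℝ, Base μ → ∃ κ : ℝ, 0 < κ ∧ ∀ ε : ℝ, 0 < ε → ∀ᶠ n : ℕ in atTop,
  (((P n).filter (fun v => (bu v : ℝ) ≤ κ * n)).card : ℝ) ≤ ε * μ ^ n

/-- JOB TR (theorem `t_TR : S_BAL → S_DEN → S_TR`): transport of mass. PROOF. `KN.S_sum` (proved) with `Q = fun _ => True`,
`F w w' = 1[w.take k ∈ 𝒜] 1[M ≤ bu w'] / bu w'`, `M = κ n`. Right side: for `w' ∈ P (n+2)` with `w'.take k ∈ 𝒜`, `M ≤ bu w'`: at least
`bu w' - k` of the bumps `j` have `j ≥ k`, then `(rem w' j).take k = w'.take k`; so it is at least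
`(1 - k / M) #{w' | w'.take k ∈ 𝒜, M ≤ bu w'}`. Left side: `bu (ins w q) ≥ bu w - 3` (`S_change`), so each `w` with `w.take k ∈ 𝒜`
contributes at most `fr w / max M (bu w - 3)`, which is `≤ μ² (1 + 3 / M) + τ' n / M` if `fr w ≤ μ² bu w + τ' n`, and always
`≤ 6 (n + 1) / M`. Add the words with few bumps (DEN) and the unbalanced ones (BAL). -/
def S_TR : Prop := ∀ μ : ℝ, Base μ → ∀ (k : ℕ) (τ : ℝ), 0 < τ → ∀ᶠ n : ℕ in atTop,
  ∀ 𝒜 : Finset (List Dir), (∀ u ∈ 𝒜, u.length = k) →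
    (∑ u ∈ 𝒜, (A (n + 2) u : ℝ)) ≤ (μ ^ 2 + τ) * (∑ u ∈ 𝒜, (A n u : ℝ)) + τ * μ ^ n

/-- JOB ROT. PROOF. `v ↦ v.rotate i` is a bijection of `P n` (`KN.S_rot_proof` or `SAP (w.rotate k)` in `H246KN`). -/
def S_ROT : Prop := ∀ (n i : ℕ) (Q : List Dir → Prop),
  ((P n).filter (fun v => Q (v.rotate i))).card = ((P n).filter Q).card

/-- JOB PRE. PROOF. If `d :: w` is a self-avoiding word or a closed word, `w` is a self-avoiding word; never both. -/
def S_PRE : Prop := ∀ (n : ℕ) (d : Dir) (u : List Dir), B (n + 1) (d :: u) + A (n + 1) (d :: u) ≤ B n u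

/-- JOB TWO. PROOF. For a word `w` (length `n ≥ 1`) let `e₁ = #{d | SAW (d :: w)}`, `e₀ = #{e | SAW (w ++ [e])}`; both are `≤ 5`;
`∑ e₁ = ∑ e₀ = #S (n + 1)`; `d :: (w ++ [e])` with both parts self-avoiding is self-avoiding or (if its end is the origin) closed:
`∑ e₀ e₁ ≤ #S (n + 2) + #P (n + 2)`; and `(5 - e₀) (5 - e₁) ≥ 0`. -/
def S_TWO : Prop := ∀ n : ℕ, 1 ≤ n → 10 * (S (n + 1)).card ≤ (S (n + 2)).card + (P (n + 2)).card + 25 * (S n).card

/-- JOB PAR: a closed word has an even number of letters. -/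
def S_PAR : Prop := ∀ n : ℕ, n % 2 = 1 → P n = ∅

/-- the index `i` is charged in `u` (total length `N`) -/
def Chg (N : ℕ) (γ : ℝ) (u : List Dir) (i : ℕ) : Prop :=
  γ * (B (N - i - 1) ((u.drop i).tail) : ℝ) ≤ (A (N - i) (u.drop i) : ℝ)

/-- JOB KILL (theorem `t_KILL : S_PRE → S_KILL`). PROOF. `B (N - i) (u.drop i) ≤ B (N - i - 1) (u.drop (i + 1))`, and
`≤ (1 - γ) B (N - i - 1) (u.drop (i + 1))` if `i` is charged (PRE). Multiply over `i = 1, …, J - 1`; at the end `B (N - J) [] =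
#S (N - J)`; and `A N u ≤ B (N - 1) u.tail` (PRE). -/
def S_KILL : Prop := ∀ (N J m : ℕ) (γ : ℝ), 1 ≤ J → J ≤ N → 0 ≤ γ → γ ≤ 1 → ∀ u : List Dir, u.length = J →
  m ≤ ((Ico 1 J).filter (fun i => Chg N γ u i)).card → (A N u : ℝ) ≤ (1 - γ) ^ m * (S (N - J)).card

/-- JOB UNC (theorem `t_UNC : S_TR → S_ROT → S_UNC`): a fixed even index is charged in most polygons. PROOF. Let
`𝒜 = {u' | |u'| = J - i, not (γ B (N-i-1) u'.tail ≤ A (N-i) u')}`. By ROT (rotate by `i`) the left side is `∑_{u' ∈ 𝒜} A N u'`;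
by TR (`i / 2` times, between `N - i` and `N`; `τ` small) it is `≤ (μ^i + τ') ∑_{u' ∈ 𝒜} A (N - i) u' + τ' μ^N`, and
`∑_{u' ∈ 𝒜} A (N - i) u' ≤ γ ∑_{u'} B (N - i - 1) u'.tail ≤ 6 γ #S (N - i - 1)`; and `#S (N - i - 1) μ^i / #S (N - 1) → 1`. -/
def S_UNC : Prop := ∀ μ : ℝ, Base μ → ∀ (J i : ℕ) (ε : ℝ), i % 2 = 0 → i < J → 0 < ε → ∀ᶠ N : ℕ in atTop,
  ∀ γ : ℝ, 0 ≤ γ → γ ≤ 1 →
    (((P N).filter (fun v => ¬ Chg N γ (v.take J) i)).card : ℝ) ≤ (7 * γ + ε) * (S (N - 1)).card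

/-- JOB CL (theorem `t_CL : S_UNC → S_KILL → S_CL`; helper21 does this one). PROOF. Suppose `#P N ≥ δ #S (N - 1)` for arbitrarily large `N`; `γ = δ / 100`,
`ε = δ/100`. By UNC the mean number of even `i < J` which are not charged is `≤ (1/8) J/2`, so for at least half of the polygons
at least `J / 4 - 1` indices `1 ≤ i < J` are charged; by KILL `#P N / 2 ≤ ∑_u (1 - γ)^(J/4 - 1) #S (N - J)`, the sum over at most
`6 #S (J - 1)` words `u`. Let `N → ∞` (`J` odd): `δ / 2 ≤ 6 (#S (J - 1) / μ^(J - 1)) (1 - γ)^(J / 4 - 1) (1 + o(1))`, which is false for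
large `J` by `growth`. -/
def S_CL : Prop := ∀ μ : ℝ, Base μ → Tendsto (fun n : ℕ => ((P (n + 1)).card : ℝ) / (S n).card) atTop (𝓝 0)

/-- JOB FIN (theorem `t_FIN : S_TWO → S_CL → S_FIN`). PROOF. With `r_n = c_{n+1} / c_n`: `10 r_n ≤ c_{n+2} / c_n + #P (n+2) / c_n + 25`, and
`#P (n+2) / c_n = (#P (n + 2) / c_{n+1}) r_n → 0` (`r_n ≤ 6`), `c_{n+2} / c_n → μ²`; lower bound: `r_{n+1} = (c_{n+2} / c_n) / r_n`. -/
def S_FIN : Prop := ∀ μ : ℝ, Base μ → ∀ ε : ℝ, 0 < ε → ∀ᶠ n : ℕ in atTop,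
  10 * μ ^ 2 / (25 + μ ^ 2) - ε ≤ ((S (n + 1)).card : ℝ) / (S n).card ∧
    ((S (n + 1)).card : ℝ) / (S n).card ≤ (25 + μ ^ 2) / 10 + ε

end

end Pool.Agent.J4H21.EE
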